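import Mathlib

/-!
# A marginally unstable continuous-time switching system with sublinear growth

The compact family `A_s = [[-s², s], [0, -s²]]`, `s ∈ [0,1]`, of real `2 × 2` matrices is
marginally unstable and every trajectory satisfies `‖x(t)‖ ≤ 2 √(1+t) ‖x(0)‖`.
-/

namespace Pool.Agent.Results.MP_c2c39f_an.SublinearGrowth

open MeasureTheory Filter Topology Matrix Set
open scoped ENNReal

/-- A switching law: a measurable map `[0,∞) → 𝒜` (values at negative times are irrelevant). -/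
def IsSwitchingLaw {d : ℕ} (𝒜 : Set (Matrix (Fin d) (Fin d) ℝ))
    (A : ℝ → Matrix (Fin d) (Fin d) ℝ) : Prop :=
  (∀ i j, Measurable ((Ici (0 : ℝ)).domRestrict fun t => A t i j)) ∧ ∀ t, 0 ≤ t → A t ∈ 𝒜

/-- A trajectory of `x' = A(t) x` on `[0,∞)`: absolutely continuous on every `[0,T]` and
satisfying the equation for almost every `t > 0`. -/
def IsTrajectory {d : ℕ} (A : ℝ → Matrix (Fin d) (Fin d) ℝ) (x : ℝ → Fin d → ℝ) : Prop :=
  (∀ T, 0 ≤ T → AbsolutelyContinuousOnInterval x 0 T) ∧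
    ∀ᵐ t : ℝ, 0 < t → HasDerivAt x (A t *ᵥ x t) t

/-- The Lyapunov exponent: the supremum over all trajectories of
`limsup (1/t) log ‖x(t)‖`, in the extended reals, with `log 0 = -∞`. -/
noncomputable def lyapunovExponent {d : ℕ} (𝒜 : Set (Matrix (Fin d) (Fin d) ℝ)) : EReal :=
  ⨆ (A : ℝ → Matrix (Fin d) (Fin d) ℝ) (x : ℝ → Fin d → ℝ) (_ : IsSwitchingLaw 𝒜 A)
    (_ : IsTrajectory A x), limsup (fun t : ℝ => ENNReal.log ‖x t‖ₑ / (t : EReal)) atTop

/-- Marginal instability: the Lyapunov exponent is `0` and some trajectory is unbounded. -/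
def IsMarginallyUnstable {d : ℕ} (𝒜 : Set (Matrix (Fin d) (Fin d) ℝ)) : Prop :=
  lyapunovExponent 𝒜 = 0 ∧
    ∃ (A : ℝ → Matrix (Fin d) (Fin d) ℝ) (x : ℝ → Fin d → ℝ),
      IsSwitchingLaw 𝒜 A ∧ IsTrajectory A x ∧ ¬ ∃ C : ℝ, ∀ t, 0 ≤ t → ‖x t‖ ≤ C

/-- `M(t)`: the supremum of `‖x(t)‖` over all switching laws and all initial values with
`‖x(0)‖ ≤ 1`, as an extended nonnegative real. -/
noncomputable def maxGrowth {d : ℕ} (𝒜 : Set (Matrix (Fin d) (Fin d) ℝ)) (t : ℝ) : ℝ≥0∞ :=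
  ⨆ (A : ℝ → Matrix (Fin d) (Fin d) ℝ) (x : ℝ → Fin d → ℝ) (_ : IsSwitchingLaw 𝒜 A)
    (_ : IsTrajectory A x) (_ : ‖x 0‖ ≤ 1), ‖x t‖ₑ

/-- Sublinear growth: `M(t)/t → 0` as `t → ∞`. -/
def HasSublinearGrowth {d : ℕ} (𝒜 : Set (Matrix (Fin d) (Fin d) ℝ)) : Prop :=
  Tendsto (fun t : ℝ => maxGrowth 𝒜 t / ENNReal.ofReal t) atTop (𝓝 0)

/-- The matrix `A_s`. -/
def mat (s : ℝ) : Matrix (Fin 2) (Fin 2) ℝ := !![-(s ^ 2), s; 0, -(s ^ 2)]

/-- The family `{A_s : s ∈ [0,1]}`. -/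
def family : Set (Matrix (Fin 2) (Fin 2) ℝ) := mat '' Icc 0 1

lemma continuous_mat : Continuous mat := by
  refine continuous_matrix fun i j => ?_
  fin_cases i <;> fin_cases j <;> simp [mat] <;> fun_prop

lemma isCompact_family : IsCompact family := isCompact_Icc.image continuous_mat

lemma ac_apply {d : ℕ} {x : ℝ → Fin d → ℝ} {a b : ℝ} (h : AbsolutelyContinuousOnInterval x a b)
    (i : Fin d) : AbsolutelyContinuousOnInterval (fun t => x t i) a b := by
  rw [absolutelyContinuousOnInterval_iff] at h ⊢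
  intro ε hε
  obtain ⟨δ, hδ, hE⟩ := h ε hε
  refine ⟨δ, hδ, fun E hEd hEs => lt_of_le_of_lt (Finset.sum_le_sum fun k _ => ?_) (hE E hEd hEs)⟩
  exact dist_le_pi_dist _ _ i

/-- The Lyapunov function estimate. -/
lemma lyap {A : ℝ → Matrix (Fin 2) (Fin 2) ℝ} {x : ℝ → Fin 2 → ℝ}
    (hA : ∀ t, 0 ≤ t → A t ∈ family) (hx : IsTrajectory A x) {T : ℝ} (hT : 0 ≤ T) :
    (x T 0) ^ 2 * (1 + T)⁻¹ + (x T 1) ^ 2 * (1 / 2) ≤ (x 0 0) ^ 2 + (x 0 1) ^ 2 * (1 / 2) := by
  have h0 := ac_apply (hx.1 T hT) 0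
  have h1 := ac_apply (hx.1 T hT) 1
  have hinv : AbsolutelyContinuousOnInterval (fun t : ℝ => (1 + t)⁻¹) 0 T := by
    apply ContDiffOn.absolutelyContinuousOnInterval
    rw [uIcc_of_le hT]
    intro t ht
    have : (1 + t) ≠ 0 := by
      have := ht.1
      positivity
    exact ((contDiffAt_const.add contDiffAt_id).inv this).contDiffWithinAt
  have hV : AbsolutelyContinuousOnInterval
      (fun t => (x t 0 * x t 0) * (1 + t)⁻¹ + (1 / 2) * (x t 1 * x t 1)) 0 T :=
    ((h0.fun_mul h0).fun_mul hinv).add ((h1.fun_mul h1).const_mul (1 / 2))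
  have hint := hV.integral_deriv_eq_sub
  have hle : ∫ t in (0 : ℝ)..T, deriv (fun t => (x t 0 * x t 0) * (1 + t)⁻¹
      + (1 / 2) * (x t 1 * x t 1)) t ≤ 0 := by
    rw [intervalIntegral.integral_of_le hT]
    apply integral_nonpos_of_ae
    rw [EventuallyLE, ae_restrict_iff' measurableSet_Ioc]
    filter_upwards [hx.2] with t ht htT
    have htp : 0 < t := htT.1
    have hd := ht htp
    rw [hasDerivAt_pi] at hd
    obtain ⟨s, -, hs⟩ := hA t htp.le
    have hd0 : HasDerivAt (fun t => x t 0) (-(s ^ 2) * x t 0 + s * x t 1) t := by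
      have := hd 0
      rw [← hs] at this
      simpa [mat, Matrix.mulVec, dotProduct, Fin.sum_univ_two] using this
    have hd1 : HasDerivAt (fun t => x t 1) (-(s ^ 2) * x t 1) t := by
      have := hd 1
      rw [← hs] at this
      simpa [mat, Matrix.mulVec, dotProduct, Fin.sum_univ_two] using this
    have h1t : (1 + t) ≠ 0 := by positivity
    have hdi : HasDerivAt (fun t : ℝ => (1 + t)⁻¹) (-1 / (1 + t) ^ 2) t := by
      have := (((hasDerivAt_id t).const_add 1).fun_inv h1t)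
      simpa using this
    have hD := ((hd0.mul hd0).mul hdi).add ((hd1.mul hd1).const_mul (1 / 2))
    have hD' : deriv (fun t => (x t 0 * x t 0) * (1 + t)⁻¹ + (1 / 2) * (x t 1 * x t 1)) t = _ :=
      hD.deriv
    rw [hD']
    have hq : (1 + t)⁻¹ * (1 + t) = 1 := inv_mul_cancel₀ h1t
    have hq0 : 0 < (1 + t)⁻¹ := by positivity
    have e : -1 / (1 + t) ^ 2 = -((1 + t)⁻¹ ^ 2) := by field_simp
    simp only [Pi.mul_apply, Pi.zero_apply]
    rw [e]
    set q := (1 + t)⁻¹ with hqdef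
    have : (((-s ^ 2 * x t 0 + s * x t 1) * x t 0 + x t 0 * (-s ^ 2 * x t 0 + s * x t 1)) * q
        + x t 0 * x t 0 * -(q ^ 2) + 1 / 2 * (-s ^ 2 * x t 1 * x t 1 + x t 1 * (-s ^ 2 * x t 1)))
        = -(2 * (s ^ 2 * (x t 0) ^ 2 * q)) - (x t 0 * q - s * x t 1) ^ 2 := by ring
    have h2 : 0 ≤ s ^ 2 * (x t 0) ^ 2 * q := by positivity
    have h3 : 0 ≤ (x t 0 * q - s * x t 1) ^ 2 := sq_nonneg _
    have h4 : (((-s ^ 2 * x t 0 + s * x t 1) * x t 0 + x t 0 * (-s ^ 2 * x t 0 + s * x t 1)) * q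
        + x t 0 * x t 0 * -(q ^ 2) + 1 / 2 * (-s ^ 2 * x t 1 * x t 1 + x t 1 * (-s ^ 2 * x t 1)))
        ≤ 0 := by
      rw [this]
      linarith
    convert h4 using 1
  rw [hint] at hle
  simp only [add_zero, inv_one, mul_one] at hle
  nlinarith

lemma norm_bound {A : ℝ → Matrix (Fin 2) (Fin 2) ℝ} {x : ℝ → Fin 2 → ℝ}
    (hA : ∀ t, 0 ≤ t → A t ∈ family) (hx : IsTrajectory A x) {T : ℝ} (hT : 0 ≤ T) :
    ‖x T‖ ≤ 2 * √(1 + T) * ‖x 0‖ := by
  have h := lyap hA hx hT
  have h00 : |x 0 0| ≤ ‖x 0‖ := norm_le_pi_norm (x 0) 0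
  have h01 : |x 0 1| ≤ ‖x 0‖ := norm_le_pi_norm (x 0) 1
  have hn := norm_nonneg (x 0)
  have h1T : (1 : ℝ) ≤ √(1 + T) := Real.one_le_sqrt.mpr (by linarith)
  have hsq : √(1 + T) ^ 2 = 1 + T := Real.sq_sqrt (by linarith)
  have s0 : (x 0 0) ^ 2 ≤ ‖x 0‖ ^ 2 := by
    rw [← sq_abs]
    exact pow_le_pow_left₀ (abs_nonneg _) h00 2
  have s1 : (x 0 1) ^ 2 ≤ ‖x 0‖ ^ 2 := by
    rw [← sq_abs (x 0 1)]
    exact pow_le_pow_left₀ (abs_nonneg _) h01 2
  have hpos : 0 < 1 + T := by linarith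
  have hq0 : 0 < (1 + T)⁻¹ := by positivity
  have hB : 0 ≤ 2 * √(1 + T) * ‖x 0‖ := by positivity
  rw [pi_norm_le_iff_of_nonneg hB]
  have k0 : (x T 0) ^ 2 ≤ (1 + T) * (3 / 2 * ‖x 0‖ ^ 2) := by
    have : (x T 0) ^ 2 * (1 + T)⁻¹ ≤ 3 / 2 * ‖x 0‖ ^ 2 := by nlinarith [sq_nonneg (x T 1)]
    calc (x T 0) ^ 2 = (1 + T) * ((x T 0) ^ 2 * (1 + T)⁻¹) := by field_simp
      _ ≤ (1 + T) * (3 / 2 * ‖x 0‖ ^ 2) := by gcongr
  have k1 : (x T 1) ^ 2 ≤ 3 * ‖x 0‖ ^ 2 := by
    have : 0 ≤ (x T 0) ^ 2 * (1 + T)⁻¹ := by positivity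
    nlinarith
  intro i
  rw [Real.norm_eq_abs]
  apply abs_le_of_sq_le_sq _ hB
  have e : (2 * √(1 + T) * ‖x 0‖) ^ 2 = 4 * (1 + T) * ‖x 0‖ ^ 2 := by
    rw [mul_pow, mul_pow, hsq]
    ring
  rw [e]
  fin_cases i
  · simp only [Fin.zero_eta]
    nlinarith [mul_nonneg hpos.le (sq_nonneg ‖x 0‖)]
  · simp only [Fin.mk_one]
    nlinarith [mul_nonneg hT (sq_nonneg ‖x 0‖), sq_nonneg ‖x 0‖]

lemma enorm_le {x : Fin 2 → ℝ} {r : ℝ} (h : ‖x‖ ≤ r) : ‖x‖ₑ ≤ ENNReal.ofReal r := by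
  rw [← ofReal_norm]
  exact ENNReal.ofReal_le_ofReal h

lemma maxGrowth_le {t : ℝ} (ht : 0 ≤ t) : maxGrowth family t ≤ ENNReal.ofReal (2 * √(1 + t)) := by
  refine iSup_le fun A => iSup_le fun x => iSup_le fun hA => iSup_le fun hx => iSup_le fun h0 => ?_
  apply enorm_le
  refine (norm_bound hA.2 hx ht).trans ?_
  have : 0 ≤ 2 * √(1 + t) := by positivity
  nlinarith

lemma tendsto_aux : Tendsto (fun t : ℝ => 2 * √(1 + t) / t) atTop (𝓝 0) := by
  have h1 : Tendsto (fun t : ℝ => 4 * t⁻¹ ^ 2 + 4 * t⁻¹) atTop (𝓝 0) := by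
    have h := tendsto_inv_atTop_zero (𝕜 := ℝ)
    simpa using ((h.pow 2).const_mul 4).add (h.const_mul 4)
  have h2 : Tendsto (fun t : ℝ => √(4 * t⁻¹ ^ 2 + 4 * t⁻¹)) atTop (𝓝 0) := by
    simpa [Function.comp_def] using (Real.continuous_sqrt.tendsto 0).comp h1
  refine h2.congr' ?_
  filter_upwards [eventually_gt_atTop 0] with t ht
  rw [Real.sqrt_eq_iff_mul_self_eq (by positivity) (by positivity)]
  have : √(1 + t) * √(1 + t) = 1 + t := Real.mul_self_sqrt (by positivity)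
  field_simp
  nlinarith

lemma sublinear_family : HasSublinearGrowth family := by
  have h : Tendsto (fun t : ℝ => ENNReal.ofReal (2 * √(1 + t) / t)) atTop (𝓝 0) := by
    have := ENNReal.tendsto_ofReal tendsto_aux
    simpa using this
  refine tendsto_of_tendsto_of_tendsto_of_le_of_le' tendsto_const_nhds h
    (Eventually.of_forall fun _ => bot_le) ?_
  filter_upwards [eventually_gt_atTop 0] with t ht
  rw [ENNReal.ofReal_div_of_pos ht]
  exact ENNReal.div_le_div_right (maxGrowth_le ht.le) _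

/-- The explicit unbounded trajectory. -/
noncomputable def traj (t : ℝ) : Fin 2 → ℝ :=
  ![Real.exp (-t / (1 + t)) * Real.log (1 + t), Real.exp (-t / (1 + t))]

lemma hasDerivAt_traj {t : ℝ} (ht : 0 < 1 + t) :
    HasDerivAt traj (mat ((1 + t)⁻¹) *ᵥ traj t) t := by
  rw [hasDerivAt_pi]
  have h1t : (1 + t) ≠ 0 := ht.ne'
  have hid : HasDerivAt (fun t : ℝ => 1 + t) 1 t := by
    simpa using (hasDerivAt_id t).const_add 1
  have hq : HasDerivAt (fun t : ℝ => -t / (1 + t)) (-((1 + t)⁻¹ ^ 2)) t := by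
    have := (hasDerivAt_neg t).fun_div hid h1t
    have e : (-1 * (1 + t) - -t * 1) / (1 + t) ^ 2 = -((1 + t)⁻¹ ^ 2) := by
      field_simp
      ring
    rw [e] at this
    exact this
  have he : HasDerivAt (fun t : ℝ => Real.exp (-t / (1 + t)))
      (Real.exp (-t / (1 + t)) * (-((1 + t)⁻¹ ^ 2))) t := hq.exp
  have hl : HasDerivAt (fun t : ℝ => Real.log (1 + t)) ((1 + t)⁻¹) t := by
    simpa using hid.log h1t
  intro i
  fin_cases i
  · have h := he.fun_mul hl
    have e : (mat ((1 + t)⁻¹) *ᵥ traj t) 0 = Real.exp (-t / (1 + t)) * (-((1 + t)⁻¹ ^ 2)) *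
        Real.log (1 + t) + Real.exp (-t / (1 + t)) * (1 + t)⁻¹ := by
      simp [traj, mat, Matrix.mulVec, dotProduct, Fin.sum_univ_two]
      ring
    rw [← e] at h
    exact h
  · have e : (mat ((1 + t)⁻¹) *ᵥ traj t) 1 =
        Real.exp (-t / (1 + t)) * (-((1 + t)⁻¹ ^ 2)) := by
      simp [traj, mat, Matrix.mulVec, dotProduct, Fin.sum_univ_two]
      ring
    rw [← e] at he
    exact he

lemma isTrajectory_traj : IsTrajectory (fun t => mat ((1 + |t|)⁻¹)) traj := by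
  constructor
  · intro T hT
    apply ContDiffOn.absolutelyContinuousOnInterval
    rw [uIcc_of_le hT]
    intro t ht
    have hpos : 0 < 1 + t := by linarith [ht.1]
    have h1t : (1 + t) ≠ 0 := hpos.ne'
    have hlin : ContDiffAt ℝ 1 (fun t : ℝ => 1 + t) t := contDiffAt_const.add contDiffAt_id
    have hq : ContDiffAt ℝ 1 (fun t : ℝ => Real.exp (-t / (1 + t))) t :=
      (contDiffAt_id.neg.div hlin h1t).exp
    have hl : ContDiffAt ℝ 1 (fun t : ℝ => Real.log (1 + t)) t := hlin.log h1t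
    apply ContDiffAt.contDiffWithinAt
    rw [contDiffAt_pi]
    intro i
    fin_cases i
    · simpa [traj] using hq.mul hl
    · simpa [traj] using hq
  · refine Eventually.of_forall fun t ht => ?_
    simp only [abs_of_pos ht]
    exact hasDerivAt_traj (by linarith)

lemma isSwitchingLaw_traj : IsSwitchingLaw family (fun t => mat ((1 + |t|)⁻¹)) := by
  constructor
  · intro i j
    have hc : Continuous fun t : ℝ => mat ((1 + |t|)⁻¹) i j := by
      have h1 : Continuous fun t : ℝ => (1 + |t|)⁻¹ :=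
        (continuous_const.add continuous_abs).inv₀
          fun t => (by positivity : (0 : ℝ) < 1 + |t|).ne'
      exact ((continuous_mat.comp h1).matrix_elem i j)
    exact (hc.continuousOn.domRestrict).measurable
  · intro t _
    refine ⟨(1 + |t|)⁻¹, ⟨by positivity, ?_⟩, rfl⟩
    apply inv_le_one_of_one_le₀
    linarith [abs_nonneg t]

lemma traj_unbounded : ¬ ∃ C : ℝ, ∀ t, 0 ≤ t → ‖traj t‖ ≤ C := by
  rintro ⟨C, hC⟩
  set t : ℝ := Real.exp (Real.exp 1 * (|C| + 1)) with ht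
  have ht0 : 0 < t := Real.exp_pos _
  have h1 := hC t ht0.le
  have h2 : traj t 0 ≤ ‖traj t‖ := (le_abs_self _).trans (norm_le_pi_norm (traj t) 0)
  have h3 : Real.exp (-1) * (Real.exp 1 * (|C| + 1)) ≤ traj t 0 := by
    have hlog : Real.exp 1 * (|C| + 1) ≤ Real.log (1 + t) := by
      rw [Real.le_log_iff_exp_le (by positivity)]
      linarith
    have hexp : Real.exp (-1) ≤ Real.exp (-t / (1 + t)) := by
      apply Real.exp_le_exp.mpr
      rw [le_div_iff₀ (by positivity)]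
      linarith
    have hpos : 0 ≤ Real.exp 1 * (|C| + 1) := by positivity
    simp only [traj, Matrix.cons_val_zero]
    exact mul_le_mul hexp hlog hpos (Real.exp_pos _).le
  have h4 : Real.exp (-1) * (Real.exp 1 * (|C| + 1)) = |C| + 1 := by
    rw [← mul_assoc, ← Real.exp_add]
    simp
  have := le_abs_self C
  linarith

lemma lyapunov_le : lyapunovExponent family ≤ 0 := by
  refine iSup_le fun A => iSup_le fun x => iSup_le fun hA => iSup_le fun hx => ?_
  set K : ℝ := 2 * (‖x 0‖ + 1) with hK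
  have hKpos : 0 < K := by positivity
  have hbound : ∀ t : ℝ, 0 ≤ t → ‖x t‖ ≤ K * (1 + t) := by
    intro t ht
    refine (norm_bound hA.2 hx ht).trans ?_
    have h1 : √(1 + t) ≤ 1 + t := by
      rw [Real.sqrt_le_left (by linarith)]
      nlinarith
    have h2 : 0 ≤ √(1 + t) := Real.sqrt_nonneg _
    have h3 : 0 ≤ ‖x 0‖ := norm_nonneg _
    nlinarith
  have hlim : Tendsto (fun t : ℝ => ((Real.log (K * (1 + t)) / t : ℝ) : EReal)) atTop (𝓝 0) := by
    have h1 : Tendsto (fun t : ℝ => Real.log (K * (1 + t)) / t) atTop (𝓝 0) := by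
      have ha : Tendsto (fun t : ℝ => Real.log (K * (1 + t)) / (K * (1 + t))) atTop (𝓝 0) := by
        have hb : Tendsto (fun t : ℝ => K * (1 + t)) atTop atTop :=
          (tendsto_atTop_add_const_left _ 1 tendsto_id).const_mul_atTop hKpos
        have := (Real.isLittleO_log_id_atTop.tendsto_div_nhds_zero).comp hb
        simpa [Function.comp_def] using this
      have hc : Tendsto (fun t : ℝ => K * (t⁻¹ + 1)) atTop (𝓝 (K * (0 + 1))) :=
        (tendsto_inv_atTop_zero.add_const 1).const_mul K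
      have := ha.mul hc
      rw [zero_mul] at this
      refine this.congr' ?_
      filter_upwards [eventually_gt_atTop 0] with t ht
      field_simp
    exact_mod_cast (continuous_coe_real_ereal.tendsto 0).comp h1
  have hle : (fun t : ℝ => ENNReal.log ‖x t‖ₑ / (t : EReal)) ≤ᶠ[atTop]
      fun t : ℝ => ((Real.log (K * (1 + t)) / t : ℝ) : EReal) := by
    filter_upwards [eventually_gt_atTop 0] with t ht
    have h1 : ENNReal.log ‖x t‖ₑ ≤ ENNReal.log (ENNReal.ofReal (K * (1 + t))) :=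
      ENNReal.log_le_log (enorm_le (hbound t ht.le))
    rw [ENNReal.log_ofReal_of_pos (by positivity)] at h1
    have h2 := EReal.div_le_div_right_of_nonneg (c := (t : EReal)) (by exact_mod_cast ht.le) h1
    rw [EReal.coe_div]
    exact h2
  calc limsup (fun t : ℝ => ENNReal.log ‖x t‖ₑ / (t : EReal)) atTop
      ≤ limsup (fun t : ℝ => ((Real.log (K * (1 + t)) / t : ℝ) : EReal)) atTop :=
        limsup_le_limsup hle
    _ = 0 := hlim.limsup_eq

lemma lyapunov_ge : 0 ≤ lyapunovExponent family := by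
  have hA : IsSwitchingLaw family (fun _ => mat 0) := by
    refine ⟨fun i j => measurable_const, fun t _ => ⟨0, ⟨le_refl _, zero_le_one⟩, rfl⟩⟩
  have hx : IsTrajectory (fun _ => mat 0) (fun _ => ![1, 0]) := by
    refine ⟨fun T hT => ?_, Eventually.of_forall fun t _ => ?_⟩
    · exact ContDiffOn.absolutelyContinuousOnInterval contDiffOn_const
    · have : mat 0 *ᵥ (![1, 0] : Fin 2 → ℝ) = 0 := by
        ext i
        fin_cases i <;> simp [mat, Matrix.mulVec, dotProduct, Fin.sum_univ_two]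
      rw [this]
      exact hasDerivAt_const t _
  have hval : limsup (fun t : ℝ => ENNReal.log ‖(![1, 0] : Fin 2 → ℝ)‖ₑ / (t : EReal)) atTop
      = 0 := by
    have hn : ‖(![1, 0] : Fin 2 → ℝ)‖ₑ = 1 := by
      rw [← ofReal_norm]
      have : ‖(![1, 0] : Fin 2 → ℝ)‖ = 1 := by
        apply le_antisymm
        · rw [pi_norm_le_iff_of_nonneg zero_le_one]
          intro i
          fin_cases i <;> simp
        · have := norm_le_pi_norm (![1, 0] : Fin 2 → ℝ) 0
          simpa using this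
      rw [this, ENNReal.ofReal_one]
    rw [hn]
    simp
  rw [← hval]
  unfold lyapunovExponent
  refine le_iSup_of_le (fun _ => mat 0) (le_iSup_of_le (fun _ => ![1, 0])
    (le_iSup_of_le hA (le_iSup_of_le hx ?_)))
  exact le_refl _

/-- **Main theorem.** There is a compact set of real `2 × 2` matrices whose continuous-time
switching system is marginally unstable and has sublinear growth. -/
theorem result : ∃ 𝒜 : Set (Matrix (Fin 2) (Fin 2) ℝ),
    IsCompact 𝒜 ∧ IsMarginallyUnstable 𝒜 ∧ HasSublinearGrowth 𝒜 :=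
  ⟨family, isCompact_family, ⟨le_antisymm lyapunov_le lyapunov_ge,
    _, _, isSwitchingLaw_traj, isTrajectory_traj, traj_unbounded⟩, sublinear_family⟩

end Pool.Agent.Results.MP_c2c39f_an.SublinearGrowth
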